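import Mathlib
import Pool.Agent.Y728.HY.Ext

/-!
# Hyperelliptic curves with rational Weierstrass points: Szpiro's inequality for configurations of
all heights

Hyperelliptic curves of genus `g ≥ 2` over a number field `K` all of whose Weierstrass points are
rational: after an automorphism of the line these are the curves
`C : y² = d x (x - 1) (x - l_1) … (x - l_m)`, `m = 2 g - 1`, with different
`l_i ∈ K ∖ {0, 1}` and `d ∈ K ^ ×`. The configurations `l = (l_1, …, l_m)` (the `K`-points of the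
moduli space `M_{0, 2 g + 2}`), of all heights, are ordered by the largest of the truncated counting
functions of the `l_i` with respect to `[0] + [1] + [∞]`, the logarithm of the product of the norms
of the primes at which `l_i` reduces to `0`, `1` or `∞`. `Δ_C` and `M_C` are `discNorm` and
`badNorm` of `Pool/Agent/W318/SzpDefs.lean`.

For `κ > 4 g + 4` the inequality `Δ_C ≤ c M_C ^ κ` holds for all quadratic twists `d` at once, for
all configurations outside a power-saving proportion; more generally, for all number fields `L`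
which contain `K` and all `d ∈ L ^ ×` the curve `C` over `L` satisfies
`Δ_C ≤ c ^ [L : K] (N(D_{L / K}) M_C) ^ κ`. The bound `4 g + 4` is best possible: for
every `κ < 4 g + 4`, for all configurations outside a power-saving proportion, the inequality fails
for some quadratic twist over `K`. For the best twist the bound is `2`: for `κ > 2`, for all
configurations outside a power-saving proportion, the inequality holds for some quadratic twist
over `K`, and for `κ < 2`, outside such a proportion, it fails for all of them.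
-/

set_option autoImplicit false

namespace Pool.Agent.Results.MP_ca2859_nt.AllHeightsRationalWeierstrass

open Polynomial IsDedekindDomain NumberField
open Pool.Agent.W318 (discNorm badNorm)

/-- The right hand side of `y² = d x (x - 1) (x - l_1) … (x - l_m)`. -/
noncomputable def curve {K : Type} [Field K] {m : ℕ} (d : K) (l : Fin m → K) : K[X] :=
  C d * (X * (X - 1) * ∏ i, (X - C (l i)))

open Classical in
/-- The truncated counting function of `[0] + [1] + [∞]` at `x`: the sum of `log N(v)` over the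
primes `v` of `K` at which `x` reduces to `0`, `1` or `∞`, that is, at which `x` or `1 - x` is not a
unit. -/
noncomputable def counting {K : Type} [Field K] [NumberField K] (x : K) : ℝ :=
  ∑ᶠ v : HeightOneSpectrum (𝓞 K),
    if v.valuation K x ≠ 1 ∨ v.valuation K (1 - x) ≠ 1 then Real.log (Ideal.absNorm v.asIdeal)
    else 0

/-- The configurations `(l_1, …, l_m)` of different elements of `K`, of whatever height, different
from `0` and `1`, whose truncated counting functions are at most `log X`. -/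
def Configurations (K : Type) [Field K] [NumberField K] (m : ℕ) (X : ℝ) : Set (Fin m → K) :=
  {l | Function.Injective l ∧ ∀ i, (l i ≠ 0 ∧ l i ≠ 1) ∧ counting (l i) ≤ Real.log X}

/-- The inequality `Δ_C ≤ c M_C ^ κ` for the twist by `d`. -/
def Szpiro {K : Type} [Field K] [NumberField K] {m : ℕ} (g : ℕ) (κ c : ℝ) (l : Fin m → K)
    (d : K) : Prop :=
  (discNorm g (curve d l) : ℝ) ≤ c * (badNorm g (curve d l) : ℝ) ^ κ

/-- The norm `N(D_{L / K}) = |D_L| / |D_K| ^ [L : K]` of the relative discriminant. -/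
noncomputable def relDisc (K L : Type) [Field K] [NumberField K] [Field L] [NumberField L]
    [Algebra K L] : ℝ :=
  |(NumberField.discr L : ℝ)| / |(NumberField.discr K : ℝ)| ^ Module.finrank K L

/-- The inequality `Δ_C ≤ c ^ [L : K] (N(D_{L / K}) M_C) ^ κ` for the curve
`C : y² = d x (x - 1) (x - l_1) … (x - l_m)` over the extension `L`, where `d ∈ L`. For `L = K` this
is `Δ_C ≤ c M_C ^ κ`. -/
def SzpiroExt {K : Type} [Field K] [NumberField K] {m : ℕ} (g : ℕ) (κ c : ℝ) (l : Fin m → K)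
    {L : Type} [Field L] [NumberField L] [Algebra K L] (d : L) : Prop :=
  (discNorm g (curve d fun i => algebraMap K L (l i)) : ℝ) ≤
    c ^ Module.finrank K L *
      (relDisc K L * (badNorm g (curve d fun i => algebraMap K L (l i)) : ℝ)) ^ κ

/-- The property `P` holds for almost all configurations: there is a power saving for the number of
the others, both in comparison with `X ^ (2 m / 3)` and in comparison with the number of all
configurations. -/
def AlmostAll (K : Type) [Field K] [NumberField K] (m : ℕ) (P : (Fin m → K) → Prop) : Prop :=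
  (∃ ν C : ℝ, 0 < ν ∧ 0 < C ∧ ∀ X : ℝ, 1 ≤ X →
    (({l | l ∈ Configurations K m X ∧ ¬ P l}.ncard : ℕ) : ℝ) ≤ C * X ^ (2 * m / 3 - ν)) ∧
  ∃ ν X₀ : ℝ, 0 < ν ∧ ∀ X : ℝ, X₀ ≤ X →
    (({l | l ∈ Configurations K m X ∧ ¬ P l}.ncard : ℕ) : ℝ) ≤
      X ^ (-ν) * ((Configurations K m X).ncard : ℝ)

theorem curve_eq {K : Type} [Field K] {m : ℕ} (d : K) (l : Fin m → K) :
    curve d l = Pool.Agent.TH905.HS.pol d (Pool.Agent.Y728.HY.cfg l) := by
  unfold curve Pool.Agent.TH905.HS.pol Pool.Agent.Y728.HY.cfg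
  rw [Fin.prod_univ_succ, Fin.prod_univ_succ]
  simp [mul_assoc]

theorem szpiro_iff {K : Type} [Field K] [NumberField K] {m : ℕ} (g : ℕ) (κ c : ℝ)
    (l : Fin m → K) (d : K) : Szpiro g κ c l d ↔
      (discNorm g (Pool.Agent.TH905.HS.pol d (Pool.Agent.Y728.HY.cfg l)) : ℝ) ≤
        c * (badNorm g (Pool.Agent.TH905.HS.pol d (Pool.Agent.Y728.HY.cfg l)) : ℝ) ^ κ := by
  unfold Szpiro
  rw [curve_eq]

theorem szpiroExt_iff {K : Type} [Field K] [NumberField K] {m : ℕ} (g : ℕ) (κ c : ℝ)
    (l : Fin m → K) {L : Type} [Field L] [NumberField L] [Algebra K L] (d : L) :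
    SzpiroExt g κ c l d ↔ (discNorm g (Pool.Agent.TH905.HS.pol d
      (Pool.Agent.Y728.HY.cfg fun i => algebraMap K L (l i))) : ℝ) ≤
        c ^ Module.finrank K L * (|(NumberField.discr L : ℝ)| / |(NumberField.discr K : ℝ)| ^
          Module.finrank K L * (badNorm g (Pool.Agent.TH905.HS.pol d
            (Pool.Agent.Y728.HY.cfg fun i => algebraMap K L (l i))) : ℝ)) ^ κ := by
  unfold SzpiroExt relDisc
  rw [curve_eq]

/-- for `L = K` the inequality is the previous one -/
theorem szpiroExt_self {K : Type} [Field K] [NumberField K] {m : ℕ} (g : ℕ) (κ c : ℝ)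
    (l : Fin m → K) (d : K) : SzpiroExt (L := K) g κ c l d ↔ Szpiro g κ c l d := by
  have h : (|(NumberField.discr K : ℝ)|) ≠ 0 := by
    rw [abs_ne_zero]
    exact_mod_cast NumberField.discr_ne_zero K
  unfold SzpiroExt Szpiro relDisc
  rw [Module.finrank_self, pow_one, pow_one, div_self h, one_mul]
  rfl

theorem configurations_eq {K : Type} [Field K] [NumberField K] (m : ℕ) (X : ℝ) :
    Configurations K m X = Pool.Agent.Y728.MN.Conf (∅ : Set (HeightOneSpectrum (𝓞 K)))
      (Pool.Agent.Y728.HY.P3 K) m X := by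
  classical
  have hf : ∀ x : K, (∀ j, Pool.Agent.TH876.KR.form (Pool.Agent.Y728.HY.P3 K j) ![x, 1] ≠ 0) ↔
      (x ≠ 0 ∧ x ≠ 1) := by
    intro x
    constructor
    · intro h
      exact ⟨((Pool.Agent.Y728.HY.P3_form x 0).1 (h 0)).1 rfl,
        ((Pool.Agent.Y728.HY.P3_form x 1).1 (h 1)).2 rfl⟩
    · intro h j
      exact (Pool.Agent.Y728.HY.P3_form x j).2 ⟨fun _ => h.1, fun _ => h.2⟩
  have hc : ∀ x : K, x ≠ 0 ∧ x ≠ 1 → counting x = Pool.Agent.TH876.KR.counting
      (∅ : Set (HeightOneSpectrum (𝓞 K))) (Pool.Agent.Y728.HY.P3 K) ![x, 1] := by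
    intro x hx
    rw [← Pool.Agent.Y728.HY.counting_P3 hx.1 hx.2]
    unfold counting
    refine finsum_congr fun v => ?_
    by_cases h : v.valuation K x ≠ 1 ∨ v.valuation K (1 - x) ≠ 1
    · exact (if_pos h).trans (if_pos h).symm
    · exact (if_neg h).trans (if_neg h).symm
  ext l
  constructor
  · rintro ⟨h1, h2⟩
    refine ⟨fun i => ⟨(hf _).2 (h2 i).1, ?_⟩, h1⟩
    have h3 := (h2 i).2
    rw [hc _ (h2 i).1] at h3
    exact h3
  · rintro ⟨h1, h2⟩
    refine ⟨h2, fun i => ?_⟩
    have h3 := (hf _).1 (h1 i).1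
    refine ⟨h3, ?_⟩
    rw [hc _ h3]
    exact (h1 i).2

/-- a property which follows from the inequality on the moduli space holds for almost all
configurations -/
theorem almostAll_of {K : Type} [Field K] [NumberField K] {m : ℕ} (hm : 0 < m)
    {P : (Fin m → K) → Prop} (hP : ∃ ε C₀ : ℝ, 0 < ε ∧ ∀ l : Fin m → K,
      (∀ i, l i ≠ 0 ∧ l i ≠ 1) → Function.Injective l →
      (((3 : ℕ) : ℝ) + m - 1 - ε) * ∑ i, Height.logHeight₁ (l i) ≤
        Pool.Agent.Y728.MN.nn (∅ : Set (HeightOneSpectrum (𝓞 K))) (Pool.Agent.Y728.HY.P3 K) l +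
          C₀ → P l) : AlmostAll K m P := by
  classical
  obtain ⟨ε, C₀, hε, hP⟩ := hP
  have h3 : 3 ≤ 3 := le_rfl
  have hS : (∅ : Set (HeightOneSpectrum (𝓞 K))).Finite := Set.finite_empty
  have ha : ∀ i j, i ≠ j → Pool.Agent.TH876.KR.form (Pool.Agent.Y728.HY.P3 K i)
      (Pool.Agent.Y728.HY.P3 K j) ≠ 0 := fun i j hij => Pool.Agent.Y728.HY.P3_ne i j hij
  have hupp := Pool.Agent.Y728.MN.exc_all h3 hm hS ha ∅ hε C₀
    (fun X => {l | l ∈ Configurations K m X ∧ ¬ P l}) (fun X l hl => by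
      obtain ⟨h1, h2⟩ := hl
      have hl1 := h1.2
      rw [configurations_eq] at h1
      refine ⟨h1.1, Or.inr ⟨h1, not_le.1 fun hle => ?_⟩⟩
      exact h2 (hP l (fun i => (hl1 i).1) h1.2 hle))
  have e3 : ((3 : ℕ) : ℝ) = 3 := by norm_num
  rw [e3] at hupp
  refine ⟨hupp, ?_⟩
  obtain ⟨ν, C, hν, hC, h1⟩ := hupp
  obtain ⟨X0, hX0, h2⟩ := Pool.Agent.Y728.MN.conf_low (m := m) h3 hm hS ha (ν / 2) (by positivity)
  rw [e3] at h2
  refine ⟨ν / 4, _, by positivity, Pool.Agent.Y728.AK.ratio_of hν hC hX0 h1 (fun X hX => ?_)⟩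
  rw [configurations_eq]
  exact h2 X hX

/-- **Hyperelliptic curves with rational Weierstrass points: Szpiro's inequality for configurations
of all heights.** Let `K` be a number field, `g ≥ 2` and `m = 2 g - 1`.

(1) The number of the configurations `l = (l_1, …, l_m)` of different elements of `K ∖ {0, 1}`, of
whatever height, whose truncated counting functions with respect to `[0] + [1] + [∞]` are all at
most `log X` is `X ^ (2 m / 3 + o(1))`.

Let `c > 0`. For almost all configurations `l` (there is a power saving for the number of the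
others) we have the following, `C` being the curve `y² = d x (x - 1) (x - l_1) … (x - l_m)`.

(2) If `κ > 4 g + 4`, then `Δ_C ≤ c M_C ^ κ` for all `d ∈ K ^ ×`. More generally we have
`Δ_C ≤ c ^ [L : K] (N(D_{L / K}) M_C) ^ κ` for all number fields `L` which contain `K` and all
`d ∈ L ^ ×`, `C` being the curve over `L`.

(3) If `0 ≤ κ < 4 g + 4`, then `Δ_C > c M_C ^ κ` for some `d ∈ K ^ ×`.

(4) If `κ > 2`, then `Δ_C ≤ c M_C ^ κ` for some `d ∈ K ^ ×`.

(5) If `κ < 2`, then `Δ_C > c M_C ^ κ` for all `d ∈ K ^ ×`. -/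
theorem result (K : Type) [Field K] [NumberField K] (g m : ℕ) (hg : 2 ≤ g)
    (hm : m + 1 = 2 * g) :
    (∀ δ : ℝ, 0 < δ →
      (∃ C : ℝ, ∀ X : ℝ, 1 ≤ X → (Configurations K m X).Finite ∧
        ((Configurations K m X).ncard : ℝ) ≤ C * X ^ (2 * m / 3 + δ)) ∧
      ∃ X₀ : ℝ, ∀ X : ℝ, X₀ ≤ X →
        X ^ (2 * m / 3 - δ) ≤ ((Configurations K m X).ncard : ℝ)) ∧
    ∀ κ c : ℝ, 0 < c →
      (4 * g + 4 < κ → AlmostAll K m fun l => (∀ d : K, d ≠ 0 → Szpiro g κ c l d) ∧
        ∀ (L : Type) [Field L] [NumberField L] [Algebra K L] (d : L), d ≠ 0 →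
          SzpiroExt g κ c l d) ∧
      (0 ≤ κ → κ < 4 * g + 4 → AlmostAll K m fun l => ∃ d : K, d ≠ 0 ∧ ¬ Szpiro g κ c l d) ∧
      (2 < κ → AlmostAll K m fun l => ∃ d : K, d ≠ 0 ∧ Szpiro g κ c l d) ∧
      (κ < 2 → AlmostAll K m fun l => ∀ d : K, d ≠ 0 → ¬ Szpiro g κ c l d) := by
  classical
  have hm0 : 0 < m := by omega
  have hn : m + 2 = 2 * g + 1 := by omega
  have h3 : 3 ≤ 3 := le_rfl
  have hS : (∅ : Set (HeightOneSpectrum (𝓞 K))).Finite := Set.finite_empty
  have ha : ∀ i j, i ≠ j → Pool.Agent.TH876.KR.form (Pool.Agent.Y728.HY.P3 K i)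
      (Pool.Agent.Y728.HY.P3 K j) ≠ 0 := fun i j hij => Pool.Agent.Y728.HY.P3_ne i j hij
  have e3 : ((3 : ℕ) : ℝ) = 3 := by norm_num
  refine ⟨fun δ hδ => ⟨?_, ?_⟩, fun κ c hc => ⟨fun hκ => almostAll_of hm0 ?_,
    fun hκ0 hκ => almostAll_of hm0 ?_, fun hκ => almostAll_of hm0 ?_,
    fun hκ => almostAll_of hm0 ?_⟩⟩
  · obtain ⟨C, hC⟩ := Pool.Agent.Y728.MN.tup_all h3 hm0 hS ha
      (∅ : Finset (Fin m × Fin m)) δ hδ
    rw [e3] at hC
    refine ⟨C, fun X hX => ?_⟩
    obtain ⟨h1, h2⟩ := hC X hX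
    have hsub : Configurations K m X ⊆ Pool.Agent.Y728.MN.TupG
        (∅ : Set (HeightOneSpectrum (𝓞 K))) (Pool.Agent.Y728.HY.P3 K)
        (∅ : Finset (Fin m × Fin m)) X := by
      rw [configurations_eq]
      exact fun x hx => ⟨hx.1, fun p hp => absurd hp (Finset.notMem_empty p)⟩
    refine ⟨h1.subset hsub, le_trans ?_ h2⟩
    exact_mod_cast Set.ncard_le_ncard hsub h1
  · obtain ⟨X0, -, h⟩ := Pool.Agent.Y728.MN.conf_low (m := m) h3 hm0 hS ha δ hδ
    rw [e3] at h
    refine ⟨X0, fun X hX => ?_⟩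
    rw [configurations_eq]
    exact h X hX
  · obtain ⟨ε, C₀, hε, h⟩ := Pool.Agent.Y728.HY.fail_ext K hg hn κ c hκ hc
    have h' : ∀ l : Fin m → K, (∀ i, l i ≠ 0 ∧ l i ≠ 1) → Function.Injective l →
        (((3 : ℕ) : ℝ) + m - 1 - ε) * ∑ i, Height.logHeight₁ (l i) ≤
          Pool.Agent.Y728.MN.nn (∅ : Set (HeightOneSpectrum (𝓞 K))) (Pool.Agent.Y728.HY.P3 K) l +
            C₀ → ∀ (L : Type) [Field L] [NumberField L] [Algebra K L] (d : L), d ≠ 0 →
              SzpiroExt g κ c l d := by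
      intro l hl hinj hle L _ _ _ d hd
      rw [szpiroExt_iff]
      exact h l hl hinj hle L d hd
    exact ⟨ε, C₀, hε, fun l hl hinj hle =>
      ⟨fun d hd => (szpiroExt_self g κ c l d).1 (h' l hl hinj hle K d hd), h' l hl hinj hle⟩⟩
  · simp only [szpiro_iff, not_le]
    exact Pool.Agent.Y728.HY.unif_sub K hg hn κ c hκ0 hκ hc
  · simp only [szpiro_iff]
    exact Pool.Agent.Y728.HY.some_sub K hg hn κ c hκ hc
  · simp only [szpiro_iff, not_le]
    exact Pool.Agent.Y728.HY.none_sub K hg hn κ c hκ hc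

end Pool.Agent.Results.MP_ca2859_nt.AllHeightsRationalWeierstrass
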