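import Pool.Agent.Y678.SZ.Main

/-!
# The exponent in the Szpiro-type bound for hyperelliptic curves is larger than
`κ(g) + 4 g + 2 = 2 (2 g + 1) (⌊(g + 1) / 2⌋ + 2)`

For a hyperelliptic curve `C : y² = F(x)` of genus `g` over a number field `K`, `discNorm g F` is
`Δ_C = ∏ N_v ^ n_v` and `badNorm g F` is `M_C`, the product of `N_v` over the places of bad
reduction (definitions in `Pool.Agent.W318.SzpDefs`; the minimal exponent `n_v` is the minimum
over all Weierstrass models over the local ring at `v` of the function field of `C`). The open
problem asks for constants `c`, `κ`, depending on `K` and `g`, with `Δ_C ≤ c M_C ^ κ`.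

Curves with potentially good reduction (Liu) show `κ ≥ κ(g) = 2 (2 g + 1) (⌊(g + 1) / 2⌋ + 1)`,
and for these curves this is the truth. Here: for every `g ≥ 2` there is one sequence of integral
polynomials `f_j` such that over EVERY number field `K` the curves `y² = f_j(x)` have genus `g` and
`Δ / M ^ (κ(g) + 4 g + 2)` tends to infinity. So an exponent `κ ≤ κ(g) + 4 g + 2` is impossible,
over any number field, with any constant `c`.

The curves: `f = w (Y (w^σ x^n + 1)² + 4 T w^σ x^n)`, `n = g + 1`, `σ = ⌊n / 2⌋`, where
`Y + T = Z`, the numbers `Y` and `Z` are products of powers of `2` and `3`, `2 Y < Z < 8 Y`,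
`5 ^ B ∣ T`, and `w` is the product of the primes `p ∣ T`, `p > j`. At the primes dividing `w` the
curve is a ramified twist, by an automorphism `x ↦ ζ x` and by the hyperelliptic involution, of a
degenerating semistable curve, and both kinds of contributions to the minimal discriminant,
`κ(g)` from the ramified twist and the thickness of the `g + 1` nodes, add up. The proof needs
lower bounds for the minimal discriminant at all places: at the places dividing `w` a direct
reduction argument; at all other places, also those above `2` and above the prime divisors of `g +
1`, a perfect matching of the `2 g + 2` Weierstrass points into pairs at distance at least `|n|_v`,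
uniformly in `Y` and `T`.
-/

namespace Pool.Agent.Results.MP_ca2859_nt.ExponentLowerBound

open Polynomial Pool.Agent.W318 Filter

/-- For every `g ≥ 2` there are integral polynomials `f_j` such that over every number field `K`
the curves `y² = f_j(x)` are hyperelliptic of genus `g` and, for all real `c` and all
`κ ≤ κ(g) + 4 g + 2`, satisfy `Δ > c M ^ κ` for all large `j`. -/
theorem result (g : ℕ) (hg : 2 ≤ g) :
    ∃ f : ℕ → ℤ[X], ∀ (K : Type) [Field K] [NumberField K],
      (∀ j, IsHyp g ((f j).map (Int.castRingHom K))) ∧
      ∀ c κ : ℝ, κ ≤ (kap g : ℝ) + (4 * g + 2) → ∀ᶠ j in atTop,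
        c * (badNorm g ((f j).map (Int.castRingHom K)) : ℝ) ^ κ <
          (discNorm g ((f j).map (Int.castRingHom K)) : ℝ) :=
  Pool.Agent.Y678.SZ.main g hg

end Pool.Agent.Results.MP_ca2859_nt.ExponentLowerBound
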