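import Mathlib
import Pool.Agent.Y902.GN.Hr3

/-!
# Hyperelliptic curves with rational Weierstrass points and few bad primes

We consider the curves `y ^ 2 = d * ∏ i, (x - a i)` with different rational `a i`, all whose
differences `a i - a j` are, up to sign, products of powers of the same `N` (unspecified) integers
of size at most `X`, with exponents of size at most `X ^ δ`.  For instance, the `N` integers may be
the primes at which the Weierstrass points are not separated.  Up to affine maps and twists, all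
but at most `X ^ ε` of these curves have all the ratios of the differences of height at most
`X ^ K`.
-/

set_option autoImplicit false

namespace Pool.Agent.Results.MP_ca2859_nt.FewBadPrimes

open Pool.Agent.Y902.GN

/-- The height of a rational number. -/
def height (q : ℚ) : ℕ := max q.num.natAbs q.den

/-- `q` is, up to sign, a product of powers of the `b j`, with (positive or negative) exponents of
size at most `B`. -/
def IsProduct {N : ℕ} (b : Fin N → ℕ) (B : ℝ) (q : ℚ) : Prop :=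
  ∃ (η : ℤ) (e : Fin N → ℤ), |η| = 1 ∧ (∀ j, ((e j).natAbs : ℝ) ≤ B) ∧
    q = η * ∏ j, (b j : ℚ) ^ e j

/-- The roots `a i` are different, and all their differences are products of powers of the same
`N` integers between `1` and `X`, with exponents of size at most `X ^ δ`. -/
def Generated (N : ℕ) (δ : ℝ) (X : ℕ) {n : ℕ} (a : Fin n → ℚ) : Prop :=
  Function.Injective a ∧ ∃ b : Fin N → ℕ, (∀ j, 1 ≤ b j ∧ b j ≤ X) ∧
    ∀ i j, i ≠ j → IsProduct b ((X : ℝ) ^ δ) (a i - a j)

/-- All the ratios of differences have height at most `B`. -/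
def Small (B : ℕ) {n : ℕ} (a : Fin n → ℚ) : Prop :=
  ∀ i j k, i ≠ j → i ≠ k → height ((a k - a i) / (a j - a i)) ≤ B

theorem IsProduct.div {N : ℕ} {b : Fin N → ℕ} (hb : ∀ j, 1 ≤ b j) {B : ℝ} {p q : ℚ}
    (hp : IsProduct b B p) (hq : IsProduct b B q) : IsProduct b (2 * B) (p / q) := by
  obtain ⟨η, e, h1, h2, h3⟩ := hp
  obtain ⟨θ, f, g1, g2, g3⟩ := hq
  have hb0 : ∀ j, (b j : ℚ) ≠ 0 := fun j => by
    have := hb j
    exact_mod_cast (by omega : b j ≠ 0)
  have hθ : (θ : ℚ) * θ = 1 := by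
    rcases abs_eq (zero_le_one) |>.1 g1 with h | h <;> rw [h] <;> norm_num
  have hθ0 : (θ : ℚ) ≠ 0 := by
    intro h0
    rw [h0, mul_zero] at hθ
    exact zero_ne_one hθ
  refine ⟨η * θ, fun j => e j - f j, by rw [abs_mul, h1, g1, one_mul], fun j => ?_, ?_⟩
  · have h4 : (e j - f j).natAbs ≤ (e j).natAbs + (f j).natAbs := Int.natAbs_sub_le _ _
    have h5 : ((e j - f j).natAbs : ℝ) ≤ ((e j).natAbs : ℝ) + ((f j).natAbs : ℝ) := by
      exact_mod_cast h4
    linarith [h2 j, g2 j]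
  · have h4 : ∏ j, (b j : ℚ) ^ (e j - f j) = (∏ j, (b j : ℚ) ^ e j) / ∏ j, (b j : ℚ) ^ f j := by
      rw [← Finset.prod_div_distrib]
      exact Finset.prod_congr rfl fun j _ => zpow_sub₀ (hb0 j) _ _
    have h5 : (∏ j, (b j : ℚ) ^ f j) ≠ 0 := Finset.prod_ne_zero_iff.2 fun j _ =>
      zpow_ne_zero _ (hb0 j)
    rw [h3, g3, h4]
    push_cast
    rw [div_eq_iff (mul_ne_zero hθ0 h5)]
    field_simp
    linear_combination (-((η : ℚ) * ∏ j, (b j : ℚ) ^ e j)) * hθ

theorem IsProduct.height_le {N : ℕ} {b : Fin N → ℕ} {X : ℕ} (hb : ∀ j, 1 ≤ b j ∧ b j ≤ X)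
    {B : ℝ} {m : ℕ} (hB : B < m + 1) {p : ℚ} (hp : IsProduct b B p) : height p ≤ X ^ (m * N) := by
  obtain ⟨η, e, h1, h2, h3⟩ := hp
  have hb0 : ∀ j, (b j : ℚ) ≠ 0 := fun j => by
    have := (hb j).1
    exact_mod_cast (by omega : b j ≠ 0)
  have he : ∀ j, (e j).natAbs ≤ m := by
    intro j
    have h4 : ((e j).natAbs : ℝ) < ((m + 1 : ℕ) : ℝ) := by
      push_cast
      exact lt_of_le_of_lt (h2 j) hB
    have h5 : (e j).natAbs < m + 1 := by exact_mod_cast h4
    omega
  have g1 : HtLe (∏ j, b j ^ (e j).natAbs) (∏ j, (b j : ℚ) ^ e j) :=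
    HtLe.prod Finset.univ _ _ fun j _ => (htLe_cast (hb j).1).zpow (hb0 j) _
  have g2 : HtLe 1 (η : ℚ) := by
    refine ⟨?_, ?_⟩
    · rw [Rat.num_intCast, h1]
      simp
    · rw [Rat.den_intCast]
  have h4 := htLe_iff.1 (g2.mul g1)
  rw [← h3, one_mul] at h4
  refine h4.trans ?_
  calc ∏ j, b j ^ (e j).natAbs ≤ ∏ _j : Fin N, X ^ m := by
        refine Finset.prod_le_prod (fun j _ => Nat.zero_le _) fun j _ => ?_
        exact (Nat.pow_le_pow_right (hb j).1 (he j)).trans (Nat.pow_le_pow_left (hb j).2 _)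
    _ = X ^ (m * N) := by
        rw [Finset.prod_const, Finset.card_univ, Fintype.card_fin, ← pow_mul]

/-- the points of the projective line minus three points -/
theorem unitPt {N K : ℕ} {δ : ℝ} {X : ℕ} {b : Fin N → ℕ}
    (hb : ∀ j, 1 ≤ b j ∧ b j ≤ X) {x : ℚ} (h1 : IsProduct b ((X : ℝ) ^ δ) x)
    (h2 : IsProduct b ((X : ℝ) ^ δ) (1 - x)) (h3 : X ^ K < height x) :
    HrPt 1 N 0 K δ X ![1, -1] x (1 - x) := by
  obtain ⟨η, e, he1, he2, he3⟩ := h1
  obtain ⟨θ, f, hf1, hf2, hf3⟩ := h2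
  refine ⟨fun i => ?_, ⟨0, 1, by decide, by simp, by simp⟩, ?_, h3,
    ⟨η, θ, b, e, f, he1, hf1, hb, fun j => ⟨he2 j, hf2 j⟩, he3, hf3⟩⟩
  · fin_cases i <;> simp
  · rw [Fin.sum_univ_two]
    simp
    ring

theorem height_div {A B : ℕ} {p q : ℚ} (hq : q ≠ 0) (h1 : height (p / q) ≤ A)
    (h2 : height q ≤ B) : height p ≤ A * B := by
  have h3 := (htLe_iff.2 h1).mul (htLe_iff.2 h2)
  rw [div_mul_cancel₀ _ hq] at h3
  exact htLe_iff.1 h3

/-- **Few bad primes.** -/
theorem result : ∀ (n N : ℕ) (ε : ℝ), 0 < ε → ∃ (K : ℕ) (δ : ℝ), 0 < δ ∧ ∀ X : ℕ, 2 ≤ X →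
    ∃ S : Finset (Fin n → ℚ), (S.card : ℝ) ≤ (X : ℝ) ^ ε ∧
      ∀ a : Fin n → ℚ, Generated N δ X a → Small (X ^ K) a ∨
        ∃ s ∈ S, ∃ r t : ℚ, r ≠ 0 ∧ ∀ i, a i = r * s i + t := by
  classical
  intro n N ε hε
  obtain ⟨K0, δ0, hδ0, H⟩ := hr 1 N 0 (ε / (4 * (n + 1))) (by positivity)
  obtain ⟨δ1, hδ1, hδ1a, hδ1b⟩ : ∃ δ1 : ℝ, 0 < δ1 ∧ δ1 ≤ δ0 ∧ δ1 ≤ 1 :=
    ⟨min δ0 1, by positivity, min_le_left _ _, min_le_right _ _⟩
  obtain ⟨X1, hX1⟩ : ∃ X1 : ℕ, X1 = ⌈((4 : ℝ) ^ n) ^ (2 / ε)⌉₊ := ⟨_, rfl⟩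
  refine ⟨2 * K0 + 1 + 3 * N + 2 * N * X1, δ1 / 2, by positivity, fun X hX => ?_⟩
  have hXr : (1 : ℝ) ≤ (X : ℝ) := by exact_mod_cast (by omega : 1 ≤ X)
  have hX0 : (0 : ℝ) < (X : ℝ) := by linarith
  -- the values of the ratios
  obtain ⟨L, hL1, hL2, hL3⟩ := max_sep
    {x : ℚ | ∃ b : Fin N → ℕ, (∀ j, 1 ≤ b j ∧ b j ≤ X) ∧ IsProduct b ((X : ℝ) ^ δ1) x ∧
      IsProduct b ((X : ℝ) ^ δ1) (1 - x) ∧ X ^ K0 < height x}
    (fun x y => x = y) (fun _ => rfl) (fun _ _ h => h.symm)
    ((X : ℝ) ^ (ε / (4 * (n + 1))))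
    (fun T h1 h2 => by
      have hinj : Function.Injective fun x : ℚ =>
          ((![1, -1], x, 1 - x) : (Fin (1 + 1) → ℤ) × ℚ × ℚ) := by
        intro x y hxy
        exact congrArg (fun z : (Fin (1 + 1) → ℤ) × ℚ × ℚ => z.2.1) hxy
      rw [← Finset.card_image_of_injective T hinj]
      refine H X hX _ ?_ ?_
      · intro t ht
        obtain ⟨x, hx, rfl⟩ := Finset.mem_image.1 ht
        obtain ⟨b, hb, g1, g2, g3⟩ := h1 x hx
        have hle : (X : ℝ) ^ δ1 ≤ (X : ℝ) ^ δ0 := Real.rpow_le_rpow_of_exponent_le hXr hδ1a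
        have hmono : ∀ q, IsProduct b ((X : ℝ) ^ δ1) q → IsProduct b ((X : ℝ) ^ δ0) q := by
          rintro q ⟨η, e, k1, k2, k3⟩
          exact ⟨η, e, k1, fun j => (k2 j).trans hle, k3⟩
        exact unitPt hb (hmono _ g1) (hmono _ g2) g3
      · intro t ht t' ht' hne
        obtain ⟨x, hx, rfl⟩ := Finset.mem_image.1 ht
        obtain ⟨y, hy, rfl⟩ := Finset.mem_image.1 ht'
        rintro ⟨ρ, κ, k1, k2, k3⟩
        have c0 := k3 0
        have c1 := k3 1
        simp at c0 c1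
        have hρ : ρ = 1 := by rw [c1, ← c0]
        apply hne
        have : x = y := by
          have k1' : x = ρ * y := k1
          rw [k1', hρ, one_mul]
        rw [this])
  obtain ⟨M, hM⟩ : ∃ M : Finset ℚ, M = insert 0 (insert 1 (L ∪ (L ×ˢ L).image
      fun p => p.1 / p.2)) := ⟨_, rfl⟩
  have hone : ∀ K : ℕ, height 1 ≤ X ^ K := fun K => by
    have : height 1 = 1 := by
      unfold height
      simp
    rw [this]
    exact Nat.one_le_pow _ _ (by omega)
  have hratio : ∀ (a : Fin n → ℚ), Function.Injective a → ∀ (b : Fin N → ℕ),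
      (∀ j, 1 ≤ b j ∧ b j ≤ X) →
      (∀ i j, i ≠ j → IsProduct b ((X : ℝ) ^ (δ1 / 2)) (a i - a j)) → ∀ i j k, i ≠ j → i ≠ k →
      IsProduct b (2 * (X : ℝ) ^ (δ1 / 2)) ((a k - a i) / (a j - a i)) := by
    intro a _ b hb hab i j k hij hik
    exact (hab k i (Ne.symm hik)).div (fun j => (hb j).1) (hab j i (Ne.symm hij))
  by_cases hXX : X < X1
  · -- small `X`
    refine ⟨∅, by
      rw [Finset.card_empty, Nat.cast_zero]
      positivity, fun a ha => Or.inl fun i j k hij hik => ?_⟩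
    obtain ⟨hinj, b, hb, hab⟩ := ha
    have h2 : 2 * (X : ℝ) ^ (δ1 / 2) < ((2 * X : ℕ) : ℝ) + 1 := by
      have h3 : (X : ℝ) ^ (δ1 / 2) ≤ X := by
        calc (X : ℝ) ^ (δ1 / 2) ≤ (X : ℝ) ^ (1 : ℝ) :=
              Real.rpow_le_rpow_of_exponent_le hXr (by linarith)
          _ = _ := Real.rpow_one _
      push_cast
      linarith
    have h4 := (hratio a hinj b hb hab i j k hij hik).height_le hb h2
    refine h4.trans (Nat.pow_le_pow_right (by omega) ?_)
    have h5 : 2 * X * N ≤ 2 * N * X1 := by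
      calc 2 * X * N = 2 * N * X := by ring
        _ ≤ 2 * N * X1 := Nat.mul_le_mul_left _ hXX.le
    omega
  by_cases hXδ : (X : ℝ) ^ (δ1 / 2) < 2
  · -- small exponents
    refine ⟨∅, by
      rw [Finset.card_empty, Nat.cast_zero]
      positivity, fun a ha => Or.inl fun i j k hij hik => ?_⟩
    obtain ⟨hinj, b, hb, hab⟩ := ha
    have h2 : 2 * (X : ℝ) ^ (δ1 / 2) < ((3 : ℕ) : ℝ) + 1 := by
      push_cast
      linarith
    have h4 := (hratio a hinj b hb hab i j k hij hik).height_le hb h2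
    exact h4.trans (Nat.pow_le_pow_right (by omega) (by omega))
  push Not at hXX hXδ
  have h2δ : 2 * (X : ℝ) ^ (δ1 / 2) ≤ (X : ℝ) ^ δ1 := by
    calc 2 * (X : ℝ) ^ (δ1 / 2) ≤ (X : ℝ) ^ (δ1 / 2) * (X : ℝ) ^ (δ1 / 2) :=
          mul_le_mul_of_nonneg_right hXδ (by positivity)
      _ = (X : ℝ) ^ δ1 := by
          rw [← Real.rpow_add hX0]
          congr 1
          ring
  refine ⟨Fintype.piFinset fun _ => M, ?_, fun a ha => ?_⟩
  · -- the number of configurations
    have h4n : (4 : ℝ) ^ n ≤ (X : ℝ) ^ (ε / 2) := by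
      have h1 : ((4 : ℝ) ^ n) ^ (2 / ε) ≤ (X : ℝ) := by
        refine (Nat.le_ceil _).trans ?_
        exact_mod_cast (by omega : ⌈((4 : ℝ) ^ n) ^ (2 / ε)⌉₊ ≤ X)
      have h2 := Real.rpow_le_rpow (by positivity) h1 (show (0 : ℝ) ≤ ε / 2 by positivity)
      rwa [← Real.rpow_mul (by positivity), show 2 / ε * (ε / 2) = 1 by field_simp,
        Real.rpow_one] at h2
    have hz : (1 : ℝ) ≤ (X : ℝ) ^ (ε / (4 * (n + 1))) := Real.one_le_rpow hXr (by positivity)
    have hMc : (M.card : ℝ) ≤ 4 * ((X : ℝ) ^ (ε / (4 * (n + 1)))) ^ 2 := by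
      have e1 : M.card ≤ L.card + L.card * L.card + 2 := by
        rw [hM]
        refine (Finset.card_insert_le _ _).trans (Nat.add_le_add_right
          ((Finset.card_insert_le _ _).trans (Nat.add_le_add_right
            ((Finset.card_union_le _ _).trans (Nat.add_le_add_left
              (Finset.card_image_le.trans ?_) _)) 1)) 1)
        rw [Finset.card_product]
      have e2 : (M.card : ℝ) ≤ (L.card : ℝ) + (L.card : ℝ) * (L.card : ℝ) + 2 := by
        exact_mod_cast e1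
      have e3 : (L.card : ℝ) * (L.card : ℝ) ≤
          (X : ℝ) ^ (ε / (4 * (n + 1))) * (X : ℝ) ^ (ε / (4 * (n + 1))) :=
        mul_le_mul hL2 hL2 (Nat.cast_nonneg _) (by positivity)
      nlinarith
    rw [Fintype.card_piFinset, Finset.prod_const, Finset.card_univ, Fintype.card_fin]
    push_cast
    calc (M.card : ℝ) ^ n ≤ (4 * ((X : ℝ) ^ (ε / (4 * (n + 1)))) ^ 2) ^ n :=
          pow_le_pow_left₀ (Nat.cast_nonneg _) hMc _
      _ = 4 ^ n * (X : ℝ) ^ (ε / (4 * (n + 1)) * (2 * n : ℕ)) := by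
          rw [mul_pow, ← pow_mul, Real.rpow_mul hX0.le, Real.rpow_natCast]
      _ ≤ (X : ℝ) ^ (ε / 2) * (X : ℝ) ^ (ε / 2) := by
          refine mul_le_mul h4n ?_ (by positivity) (by positivity)
          refine Real.rpow_le_rpow_of_exponent_le hXr ?_
          push_cast
          rw [div_mul_eq_mul_div, div_le_div_iff₀ (by positivity) (by positivity)]
          have : (0 : ℝ) ≤ (n : ℝ) := Nat.cast_nonneg _
          nlinarith
      _ = (X : ℝ) ^ ε := by
          rw [← Real.rpow_add hX0]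
          congr 1
          ring
  · obtain ⟨hinj, b, hb, hab⟩ := ha
    by_cases hsm : Small (X ^ (2 * K0 + 1 + 3 * N + 2 * N * X1)) a
    · exact Or.inl hsm
    right
    unfold Small at hsm
    push Not at hsm
    obtain ⟨i, j, k, hij, hik, hbig⟩ := hsm
    have hjk : j ≠ k := by
      rintro rfl
      rw [div_self (sub_ne_zero.2 fun h => hik (hinj h).symm)] at hbig
      exact absurd (hone _) (not_le.2 hbig)
    have hinL : ∀ p q r, p ≠ q → p ≠ r → q ≠ r →
        X ^ K0 < height ((a r - a p) / (a q - a p)) → (a r - a p) / (a q - a p) ∈ L := by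
      intro p q r hpq hpr hqr hbig
      have hmono : ∀ z, IsProduct b (2 * (X : ℝ) ^ (δ1 / 2)) z → IsProduct b ((X : ℝ) ^ δ1) z := by
        rintro z ⟨η, e, k1, k2, k3⟩
        exact ⟨η, e, k1, fun j => (k2 j).trans h2δ, k3⟩
      have hqp : a q - a p ≠ 0 := sub_ne_zero.2 fun h => hpq (hinj h).symm
      have h1 : 1 - (a r - a p) / (a q - a p) = (a q - a r) / (a q - a p) := by
        field_simp
        ring
      obtain ⟨y, hy, hxy⟩ := hL3 ((a r - a p) / (a q - a p))
        ⟨b, hb, hmono _ (hratio a hinj b hb hab p q r hpq hpr), by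
          rw [h1]
          exact hmono _ ((hab q r hqr).div (fun j => (hb j).1) (hab q p (Ne.symm hpq))), hbig⟩
      rw [hxy]
      exact hy
    have hji : a j - a i ≠ 0 := sub_ne_zero.2 fun h => hij (hinj h).symm
    refine ⟨fun l => (a l - a i) / (a j - a i), Fintype.mem_piFinset.2 fun l => ?_, a j - a i,
      a i, hji, fun l => by field_simp; ring⟩
    have hk : (a k - a i) / (a j - a i) ∈ L := hinL i j k hij hik hjk
      (lt_of_le_of_lt (Nat.pow_le_pow_right (by omega) (by omega)) hbig)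
    rw [hM]
    by_cases hli : l = i
    · rw [hli, sub_self, zero_div]
      exact Finset.mem_insert_self _ _
    by_cases hlj : l = j
    · rw [hlj, div_self hji]
      exact Finset.mem_insert_of_mem (Finset.mem_insert_self _ _)
    refine Finset.mem_insert_of_mem (Finset.mem_insert_of_mem ?_)
    by_cases hlk : l = k
    · rw [hlk]
      exact Finset.mem_union_left _ hk
    by_cases hl : X ^ K0 < height ((a l - a i) / (a j - a i))
    · exact Finset.mem_union_left _ (hinL i j l hij (Ne.symm hli) (Ne.symm hlj) hl)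
    · push Not at hl
      refine Finset.mem_union_right _ ?_
      have hlia : a l - a i ≠ 0 := sub_ne_zero.2 fun h => hli (hinj h)
      have hkia : a k - a i ≠ 0 := sub_ne_zero.2 fun h => hik (hinj h).symm
      have hν : (a k - a i) / (a l - a i) ∈ L := by
        refine hinL i l k (Ne.symm hli) hik hlk ?_
        by_contra hcon
        push Not at hcon
        have h5 : (a k - a i) / (a j - a i) / ((a l - a i) / (a j - a i)) =
            (a k - a i) / (a l - a i) := by
          field_simp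
        rw [← h5] at hcon
        have h6 := height_div (div_ne_zero hlia hji) hcon hl
        have h7 : X ^ K0 * X ^ K0 ≤ X ^ (2 * K0 + 1 + 3 * N + 2 * N * X1) := by
          rw [← pow_add]
          exact Nat.pow_le_pow_right (by omega) (by omega)
        exact absurd (h6.trans h7) (not_le.2 hbig)
      refine Finset.mem_image.2 ⟨((a k - a i) / (a j - a i), (a k - a i) / (a l - a i)),
        Finset.mem_product.2 ⟨hk, hν⟩, ?_⟩
      simp only
      field_simp

end Pool.Agent.Results.MP_ca2859_nt.FewBadPrimes
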