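import Pool.Agent.Results.MP_ca2859_nt.RationalWeierstrassPoints
import Pool.Agent.Y854.GM.Win

/-!
# The discriminant bound for all hyperelliptic curves in windows of heights

Hyperelliptic curves of genus `g ≥ 2` over a number field `K` all of whose Weierstrass points are rational: the twists by
`d ∈ K*` of `y² = X ∏ (X - x_i)`, where `x` is a point of `P^{2g-1}(K)` with `0, x_i` different. Let `v ≥ 1` be a sequence
with exponent of convergence at most `τ` and `0 ≤ θ < 1`. For all `α > 0` outside a small set and all but finitely many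
`n`, the inequality `Δ_C ≤ c M_C ^ κ` holds for ALL twists of ALL such configurations `x` with
`|H_K(x) ^ (2g) - α v_n| ≤ v_n ^ θ`, if `κ > 4 g + 4`; if `κ < 4 g + 4` it fails for some twist of EACH such `x`.
-/

set_option autoImplicit false

open NumberField Height Finset LinearAlgebra.Projectivization Polynomial
open Pool.Agent.W318 (discNorm badNorm)

namespace Pool.Agent.Results.MP_ca2859_nt.HeightWindows

/-- the exponent of convergence of the sequence `v` is at most `τ` -/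
def ExpLe (v : ℕ → ℝ) (τ : ℝ) : Prop := ∀ t : ℝ, τ < t → Summable (fun n : ℕ => (v n) ^ (-t))

/-- the roots `0, x_0, ..., x_n` -/
def roots {K : Type} [Field K] {n : ℕ} (x : Fin (n + 1) → K) : Fin (n + 2) → K := Fin.cons 0 x

/-- the right hand side of `y² = d ∏ (X - e_i)`, the `e_i` being the roots -/
noncomputable def curve {K : Type} [Field K] {n : ℕ} (d : K) (x : Fin (n + 1) → K) : K[X] :=
  C d * ∏ i, (X - C (roots x i))

/-- the exponent above `4 g + 4` -/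
noncomputable def expo (g : ℕ) (κ : ℝ) : ℝ :=
  min (max (2 * g - 1 / 2) (4 * g / (κ - 4 * g - 2)))
    (min (2 * g * (2 * g + 1) / (κ - 4 * g - 2)) (1 + 2 * g * (2 * g - 1) / (κ - 4 * g - 2)))

/-- the exponent below `4 g + 4` -/
noncomputable def expoBelow (g : ℕ) (κ : ℝ) : ℝ :=
  max (2 * g - 1 / 2) (4 * g / (2 + (2 * g + 1) * (1 - κ / (4 * g + 4))))

lemma count_of {K : Type} [Field K] [NumberField K] {g n : ℕ} (hg : 2 ≤ g) (S : Set (ℙ K (Fin (n + 1) → K)))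
    (F : ℝ → Set (ℙ K (Fin (n + 1) → K))) (e : ℝ)
    (hF : ∀ δ : ℝ, 0 < δ → ∃ M : ℝ, ∀ B : ℝ, 1 ≤ B → (F B).Finite ∧
      ((F B).ncard : ℝ) ≤ M * B ^ (Module.finrank ℚ K * e + δ))
    (hS : ∀ P ∈ S, ∀ B : ℝ, 1 ≤ B → Real.log P.mulHeight / Module.finrank ℚ K ≤ Real.log B → P ∈ F B)
    (ε : ℝ) (hε : 0 < ε) :
    ∃ C : ℝ, ∀ X : ℝ, 1 ≤ X →
      {P | P ∈ S ∧ P.mulHeight ^ (2 * g) ≤ X}.Finite ∧
      ({P | P ∈ S ∧ P.mulHeight ^ (2 * g) ≤ X}.ncard : ℝ) ≤ C * X ^ (e / (2 * g) + ε) := by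
  have hd : (0 : ℝ) < (Module.finrank ℚ K : ℝ) := by exact_mod_cast Module.finrank_pos
  set d : ℝ := (Module.finrank ℚ K : ℝ) with hd'
  have hg0 : (0 : ℝ) < g := by exact_mod_cast (by omega : 0 < g)
  obtain ⟨M, hM⟩ := hF (2 * g * d * ε) (by positivity)
  refine ⟨M, fun X hX => ?_⟩
  have hX0 : 0 < X := by linarith
  have hB : 1 ≤ X ^ (1 / (2 * g * d)) := Real.one_le_rpow hX (by positivity)
  obtain ⟨hfin, hcard⟩ := hM (X ^ (1 / (2 * g * d))) hB
  have hsub : {P | P ∈ S ∧ P.mulHeight ^ (2 * g) ≤ X} ⊆ F (X ^ (1 / (2 * g * d))) := by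
    rintro P ⟨hP, hPX⟩
    apply hS P hP _ hB
    have h1 : 0 < P.mulHeight := P.mulHeight_pos
    have h2 : Real.log (P.mulHeight ^ (2 * g)) ≤ Real.log X := Real.log_le_log (by positivity) hPX
    rw [Real.log_pow] at h2
    rw [Real.log_rpow hX0, div_le_iff₀ hd]
    push_cast at h2
    have h3 : Real.log P.mulHeight ≤ Real.log X / (2 * g) := by
      rw [le_div_iff₀ (by positivity)]
      linarith
    refine h3.trans (le_of_eq ?_)
    field_simp
  refine ⟨hfin.subset hsub, ?_⟩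
  have h4 : ({P | P ∈ S ∧ P.mulHeight ^ (2 * g) ≤ X}.ncard : ℝ) ≤ ((F (X ^ (1 / (2 * g * d)))).ncard : ℝ) := by
    exact_mod_cast Set.ncard_le_ncard hsub hfin
  refine (h4.trans hcard).trans (le_of_eq ?_)
  rw [← Real.rpow_mul hX0.le]
  congr 2
  field_simp

/-- **Theorem.** Let `v ≥ 1` be a sequence of exponent of convergence at most `τ ≥ 0`, `0 ≤ θ < 1`, `K` a number field,
`g ≥ 2` and `c > 0`. (1) If `κ > 4 g + 4` there is a set `E` of Hausdorff dimension at most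
`(expo g κ / (2 g) + τ) / (1 - θ)`, where `expo g κ < 2 g`, such that for each `α > 0` outside `E` and all but finitely many
`k`, for ALL configurations `P` with different roots and `|H_K(P) ^ (2 g) - α v_k| ≤ v_k ^ θ` and ALL twists `d` the
inequality `Δ_C ≤ c M_C ^ κ` holds. (2) If `0 ≤ κ < 4 g + 4` there is a set `E` of dimension at most
`(expoBelow g κ / (2 g) + τ) / (1 - θ)`, where `expoBelow g κ < 2 g`, such that for each `α > 0` outside `E` and all but
finitely many `k`, for EACH such configuration the inequality fails for some twist. (3) The sequences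
`v_k = (k + 1) ^ a` and `v_k = b ^ k` have exponent of convergence at most `1 / a` and `0`. -/
theorem result :
    (∀ (K : Type) [Field K] [NumberField K] (g n : ℕ) (κ c τ θ : ℝ) (v : ℕ → ℝ), 2 ≤ g → n + 1 = 2 * g →
      4 * g + 4 < κ → 0 < c → (∀ k, 1 ≤ v k) → 0 ≤ τ → ExpLe v τ → 0 ≤ θ → θ < 1 →
      expo g κ < 2 * g ∧
      ∃ E : Set ℝ, dimH E ≤ ENNReal.ofReal ((expo g κ / (2 * g) + τ) / (1 - θ)) ∧
        ∀ α : ℝ, 0 < α → α ∉ E → ∃ k₀ : ℕ, ∀ k : ℕ, k₀ ≤ k → ∀ P : ℙ K (Fin (n + 1) → K),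
          Function.Injective (roots P.rep) → |P.mulHeight ^ (2 * g) - α * v k| ≤ (v k) ^ θ →
            ∀ d : K, d ≠ 0 →
              (discNorm g (curve d P.rep) : ℝ) ≤ c * (badNorm g (curve d P.rep) : ℝ) ^ κ) ∧
    (∀ (K : Type) [Field K] [NumberField K] (g n : ℕ) (κ c τ θ : ℝ) (v : ℕ → ℝ), 2 ≤ g → n + 1 = 2 * g →
      0 ≤ κ → κ < 4 * g + 4 → 0 < c → (∀ k, 1 ≤ v k) → 0 ≤ τ → ExpLe v τ → 0 ≤ θ → θ < 1 →
      expoBelow g κ < 2 * g ∧
      ∃ E : Set ℝ, dimH E ≤ ENNReal.ofReal ((expoBelow g κ / (2 * g) + τ) / (1 - θ)) ∧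
        ∀ α : ℝ, 0 < α → α ∉ E → ∃ k₀ : ℕ, ∀ k : ℕ, k₀ ≤ k → ∀ P : ℙ K (Fin (n + 1) → K),
          Function.Injective (roots P.rep) → |P.mulHeight ^ (2 * g) - α * v k| ≤ (v k) ^ θ →
            ∃ d : K, d ≠ 0 ∧
              c * (badNorm g (curve d P.rep) : ℝ) ^ κ < (discNorm g (curve d P.rep) : ℝ)) ∧
    (∀ a : ℝ, 0 < a → ExpLe (fun n : ℕ => ((n : ℝ) + 1) ^ a) (1 / a)) ∧
    (∀ b : ℝ, 1 < b → ExpLe (fun n : ℕ => b ^ n) 0) := by
  refine ⟨fun K _ _ g n κ c τ θ v hg hn hκ hc hv hτ hE hθ hθ1 => ?_,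
    fun K _ _ g n κ c τ θ v hg hn hκ0 hκ hc hv hτ hE hθ hθ1 => ?_,
    fun κ hκ => Pool.Agent.Y854.GM.expLe_pow κ hκ, fun b hb => Pool.Agent.Y854.GM.expLe_geom b hb⟩
  · obtain ⟨h1, h2⟩ := (RationalWeierstrassPoints.result K g n hg hn κ).1 hκ
    have hg2 : (2 : ℝ) ≤ g := by exact_mod_cast hg
    have hs : 0 ≤ expo g κ := by
      have hk : 0 < κ - 4 * g - 2 := by linarith
      unfold expo
      refine le_min ((by linarith : (0 : ℝ) ≤ 2 * g - 1 / 2).trans (le_max_left _ _)) (le_min ?_ ?_)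
      · positivity
      · have : (0 : ℝ) ≤ 2 * g - 1 := by linarith
        positivity
    refine ⟨h1, ?_⟩
    set S : Set (ℙ K (Fin (n + 1) → K)) := {P | Function.Injective (roots P.rep) ∧
      ∃ d : K, d ≠ 0 ∧ c * (badNorm g (curve d P.rep) : ℝ) ^ κ < discNorm g (curve d P.rep)} with hS
    obtain ⟨E, h3, h4⟩ := Pool.Agent.Y854.GM.windows S (fun P => P.mulHeight ^ (2 * g)) hv hτ hE
      (s := expo g κ / (2 * g)) (by positivity) hθ1
      (count_of hg S (fun B => RationalWeierstrassPoints.exceptional K g n κ c B) (expo g κ)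
        (fun δ hδ => h2 c δ hc hδ) (fun P hP B hB hB2 => ⟨hP.1, hB2, hP.2⟩))
    refine ⟨E, h3, fun α hα hαE => ?_⟩
    obtain ⟨k₀, hk⟩ := h4 α hα hαE
    refine ⟨k₀, fun k hk1 P hP hw d hd => ?_⟩
    by_contra hcon
    push Not at hcon
    exact absurd (hk k hk1 P ⟨hP, d, hd, hcon⟩) (not_lt.2 hw)
  · obtain ⟨h1, h2⟩ := (RationalWeierstrassPoints.result K g n hg hn κ).2 hκ0 hκ
    have hg2 : (2 : ℝ) ≤ g := by exact_mod_cast hg
    have hs : 0 ≤ expoBelow g κ := by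
      unfold expoBelow
      exact (by linarith : (0 : ℝ) ≤ 2 * g - 1 / 2).trans (le_max_left _ _)
    refine ⟨h1, ?_⟩
    set S : Set (ℙ K (Fin (n + 1) → K)) := {P | Function.Injective (roots P.rep) ∧
      ∀ d : K, d ≠ 0 → (discNorm g (curve d P.rep) : ℝ) ≤ c * (badNorm g (curve d P.rep) : ℝ) ^ κ} with hS
    obtain ⟨E, h3, h4⟩ := Pool.Agent.Y854.GM.windows S (fun P => P.mulHeight ^ (2 * g)) hv hτ hE
      (s := expoBelow g κ / (2 * g)) (by positivity) hθ1
      (count_of hg S (fun B => RationalWeierstrassPoints.uniform K g n κ c B) (expoBelow g κ)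
        (fun δ hδ => h2 c δ hc hδ) (fun P hP B hB hB2 => ⟨hP.1, hB2, hP.2⟩))
    refine ⟨E, h3, fun α hα hαE => ?_⟩
    obtain ⟨k₀, hk⟩ := h4 α hα hαE
    refine ⟨k₀, fun k hk1 P hP hw => ?_⟩
    by_contra hcon
    push Not at hcon
    exact absurd (hk k hk1 P ⟨hP, hcon⟩) (not_lt.2 hw)

end Pool.Agent.Results.MP_ca2859_nt.HeightWindows
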